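import Pool.Agent.C4U.Stmts

set_option autoImplicit false

namespace Pool.Agent.C4U.H77

open Pool.Agent.C4F (cn)

theorem cn_eq (P : ℕ → Prop) [DecidablePred P] (n : ℕ) : cn P n = Nat.count P n := by
  unfold cn
  have e : (fun a => Classical.propDecidable (P a)) = ‹DecidablePred P› := Subsingleton.elim _ _
  rw [e]

theorem cn_le (P : ℕ → Prop) (n : ℕ) : cn P n ≤ n := by
  classical
  rw [cn_eq P n]
  exact Nat.count_le _

theorem cn_mono (P Q : ℕ → Prop) (n : ℕ) (h : ∀ v < n, P v → Q v) : cn P n ≤ cn Q n := by
  classical
  rw [cn_eq P n, cn_eq Q n]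
  induction n with
  | zero => simp
  | succ n ih =>
    rw [Nat.count_succ, Nat.count_succ]
    have h1 := ih fun v hv => h v (by omega)
    by_cases hp : P n
    · have hq := h n (by omega) hp
      rw [if_pos hp, if_pos hq]
      omega
    · rw [if_neg hp]
      omega

theorem cn_congr (P Q : ℕ → Prop) (n : ℕ) (h : ∀ v < n, (P v ↔ Q v)) : cn P n = cn Q n :=
  le_antisymm (cn_mono P Q n fun v hv => (h v hv).1) (cn_mono Q P n fun v hv => (h v hv).2)

theorem cn_lt (n m : ℕ) : cn (fun v => v < m) n = min m n := by
  classical
  rw [cn_eq (fun v => v < m) n]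
  induction n with
  | zero => simp
  | succ n ih =>
    rw [Nat.count_succ, ih]
    split_ifs with h <;> omega

theorem cnl : CnlStmt := by
  classical
  refine ⟨cn_le, ?_, ?_, cn_congr, cn_mono⟩
  · intro P n hP
    -- the predicate is an initial segment below `n`
    by_cases hall : ∀ v < n, P v
    · have h1 : cn P n = n := by
        rw [cn_congr P (fun v => v < n) n fun v hv => ⟨fun _ => hv, fun _ => hall v hv⟩, cn_lt,
          min_self]
      rw [h1]
      exact ⟨hall, fun h => absurd h (lt_irrefl _)⟩
    · push Not at hall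
      have hex : ∃ v, v < n ∧ ¬ P v := hall
      obtain ⟨hm1, hm2⟩ := Nat.find_spec hex
      set m := Nat.find hex with hm
      have hmin : ∀ v < m, P v := by
        intro v hv
        by_contra hc
        exact Nat.find_min hex hv ⟨by omega, hc⟩
      have h1 : cn P n = m := by
        rw [cn_congr P (fun v => v < m) n fun v _ => ⟨fun h => by
          by_contra hc
          exact hm2 (hP m v (by omega) h), fun h => hmin v h⟩, cn_lt]
        omega
      rw [h1]
      exact ⟨hmin, fun _ => hm2⟩
  · intro P n m h
    rw [cn_congr P (fun v => v < m) n h, cn_lt]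

end Pool.Agent.C4U.H77
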